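import Mathlib
import Pool.Agent.W187.WQ.Stmts5

/-!
# Logarithms of small integers to high precision

`lsum q D n` is an integer approximation of `D * log ((q + 1) / (q - 1))`, computed with natural
numbers only.
-/

namespace Pool.Agent.W90.WQ

/-- `∑_{k < n} ⌊2 D / ((2 k + 1) q ^ (2 k + 1))⌋` -/
def lsum (q D : ℕ) : ℕ → ℕ
  | 0 => 0
  | n + 1 => lsum q D n + 2 * D / ((2 * n + 1) * q ^ (2 * n + 1))

/-- real terms of the series -/
noncomputable def tm (q : ℕ) (k : ℕ) : ℝ := 2 * (1 / (2 * (k : ℝ) + 1)) * (1 / (q : ℝ)) ^ (2 * k + 1)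

theorem tm_nonneg (q k : ℕ) : 0 ≤ tm q k := by
  unfold tm; positivity

theorem tm_eq (q k : ℕ) : tm q k = 2 / (((2 * k + 1) * q ^ (2 * k + 1) : ℕ) : ℝ) := by
  unfold tm
  push_cast
  rw [one_div_pow]
  by_cases hq : (q : ℝ) ^ (2 * k + 1) = 0
  · rw [hq]; simp
  · field_simp

theorem lsum_le (q D : ℕ) : ∀ n, (lsum q D n : ℝ) ≤ D * ∑ k ∈ Finset.range n, tm q k ∧
    D * ∑ k ∈ Finset.range n, tm q k ≤ lsum q D n + n
  | 0 => by simp [lsum]
  | n + 1 => by
    obtain ⟨h1, h2⟩ := lsum_le q D n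
    rw [Finset.sum_range_succ, mul_add, tm_eq]
    have e : (D : ℝ) * (2 / (((2 * n + 1) * q ^ (2 * n + 1) : ℕ) : ℝ)) =
        ((2 * D : ℕ) : ℝ) / (((2 * n + 1) * q ^ (2 * n + 1) : ℕ) : ℝ) := by
      push_cast; ring
    rw [e]
    simp only [lsum]
    have a1 : (((2 * D / ((2 * n + 1) * q ^ (2 * n + 1)) : ℕ) : ℕ) : ℝ) ≤
        ((2 * D : ℕ) : ℝ) / (((2 * n + 1) * q ^ (2 * n + 1) : ℕ) : ℝ) := Nat.cast_div_le
    have a2 : ((2 * D : ℕ) : ℝ) / (((2 * n + 1) * q ^ (2 * n + 1) : ℕ) : ℝ) ≤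
        (((2 * D / ((2 * n + 1) * q ^ (2 * n + 1)) : ℕ) : ℕ) : ℝ) + 1 := by
      rcases Nat.eq_zero_or_pos ((2 * n + 1) * q ^ (2 * n + 1)) with h0 | h0
      · rw [h0]; simp
      · have hp : (0 : ℝ) < (((2 * n + 1) * q ^ (2 * n + 1) : ℕ) : ℝ) := by exact_mod_cast h0
        rw [div_le_iff₀ hp]
        have := Nat.lt_div_mul_add (a := 2 * D) h0
        have h3 : 2 * D ≤ (2 * D / ((2 * n + 1) * q ^ (2 * n + 1)) + 1) *
            ((2 * n + 1) * q ^ (2 * n + 1)) := by
          rw [add_mul, one_mul]; exact this.le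
        exact_mod_cast h3
    constructor
    · rw [Nat.cast_add]; linarith
    · rw [Nat.cast_add, Nat.cast_add, Nat.cast_one]; linarith

/-- the remainder of the series -/
theorem rem_le (q n : ℕ) (hq : 2 ≤ q) :
    ∑ k ∈ Finset.range n, tm q k ≤ Real.log ((q : ℝ) + 1) - Real.log ((q : ℝ) - 1) ∧
    Real.log ((q : ℝ) + 1) - Real.log ((q : ℝ) - 1) ≤
      ∑ k ∈ Finset.range n, tm q k + 3 / (q : ℝ) ^ (2 * n + 1) := by
  have hq2 : (2 : ℝ) ≤ q := by exact_mod_cast hq
  have hq0 : (0 : ℝ) < q := by linarith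
  have hx : |(1 / (q : ℝ))| < 1 := by
    rw [abs_of_pos (by positivity), div_lt_one hq0]; linarith
  have hs := Real.hasSum_log_sub_log_of_abs_lt_one hx
  have e1 : Real.log (1 + 1 / (q : ℝ)) - Real.log (1 - 1 / (q : ℝ)) =
      Real.log ((q : ℝ) + 1) - Real.log ((q : ℝ) - 1) := by
    rw [← Real.log_div, ← Real.log_div]
    · congr 1
      have : (q : ℝ) - 1 ≠ 0 := by linarith
      field_simp
    · linarith
    · linarith
    · positivity
    · rw [sub_ne_zero]; intro h
      have := hx; rw [← h] at this; simp at this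
  rw [e1] at hs
  have hs' : HasSum (tm q) (Real.log ((q : ℝ) + 1) - Real.log ((q : ℝ) - 1)) := hs
  refine ⟨?_, ?_⟩
  · rw [← hs'.tsum_eq]
    exact hs'.summable.sum_le_tsum _ (fun k _ => tm_nonneg q k)
  · have h1 : Real.log ((q : ℝ) + 1) - Real.log ((q : ℝ) - 1) =
        ∑ k ∈ Finset.range n, tm q k + ∑' k, tm q (k + n) := by
      rw [← hs'.tsum_eq]
      exact (hs'.summable.sum_add_tsum_nat_add n).symm
    rw [h1]
    gcongr
    have hr : (1 / (q : ℝ)) ^ 2 ≤ 1 / 4 := by
      rw [one_div_pow]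
      apply one_div_le_one_div_of_le (by norm_num)
      nlinarith
    have hr0 : 0 ≤ (1 / (q : ℝ)) ^ 2 := by positivity
    have hg : HasSum (fun k => (2 * (1 / (q : ℝ)) ^ (2 * n + 1)) * ((1 / (q : ℝ)) ^ 2) ^ k)
        ((2 * (1 / (q : ℝ)) ^ (2 * n + 1)) * (1 - (1 / (q : ℝ)) ^ 2)⁻¹) :=
      (hasSum_geometric_of_lt_one hr0 (by linarith)).mul_left _
    calc ∑' k, tm q (k + n) ≤ ∑' k, (2 * (1 / (q : ℝ)) ^ (2 * n + 1)) * ((1 / (q : ℝ)) ^ 2) ^ k := by
          apply Summable.tsum_le_tsum _ ((summable_nat_add_iff n).mpr hs'.summable) hg.summable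
          intro k
          unfold tm
          have h2 : (1 / (q : ℝ)) ^ (2 * (k + n) + 1) =
              (1 / (q : ℝ)) ^ (2 * n + 1) * ((1 / (q : ℝ)) ^ 2) ^ k := by
            rw [← pow_mul, ← pow_add]; congr 1; ring
          rw [h2, mul_assoc 2 ((1 / (q : ℝ)) ^ (2 * n + 1)), mul_assoc 2]
          apply mul_le_mul_of_nonneg_left _ (by norm_num)
          have h3 : 1 / (2 * ((k + n : ℕ) : ℝ) + 1) ≤ 1 := by
            rw [div_le_one (by positivity)]
            have : (0 : ℝ) ≤ ((k + n : ℕ) : ℝ) := by positivity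
            linarith
          calc _ ≤ 1 * ((1 / (q : ℝ)) ^ (2 * n + 1) * ((1 / (q : ℝ)) ^ 2) ^ k) := by
                apply mul_le_mul_of_nonneg_right h3 (by positivity)
            _ = _ := one_mul _
      _ = (2 * (1 / (q : ℝ)) ^ (2 * n + 1)) * (1 - (1 / (q : ℝ)) ^ 2)⁻¹ := hg.tsum_eq
      _ ≤ (2 * (1 / (q : ℝ)) ^ (2 * n + 1)) * (4 / 3) := by
          apply mul_le_mul_of_nonneg_left _ (by positivity)
          rw [inv_le_comm₀ (by linarith) (by norm_num)]
          norm_num; norm_num at hr; linarith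
      _ ≤ 3 / (q : ℝ) ^ (2 * n + 1) := by
          rw [one_div_pow]
          have : (0 : ℝ) < 1 / (q : ℝ) ^ (2 * n + 1) := by positivity
          have e : 3 / (q : ℝ) ^ (2 * n + 1) = 3 * (1 / (q : ℝ) ^ (2 * n + 1)) := by ring
          rw [e]; linarith

/-- `log ((q + 1) / (q - 1))` up to `(n + 1) / D` -/
theorem log_approx (q D n N : ℕ) (hq : 2 ≤ q) (hD : 0 < D) (hn : 3 * D ≤ q ^ (2 * n + 1))
    (hN : lsum q D n = N) :
    |Real.log ((q : ℝ) + 1) - Real.log ((q : ℝ) - 1) - (N : ℝ) / D| ≤ ((n : ℝ) + 1) / D := by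
  subst hN
  obtain ⟨h1, h2⟩ := lsum_le q D n
  obtain ⟨h3, h4⟩ := rem_le q n hq
  have hD' : (0 : ℝ) < D := by exact_mod_cast hD
  have hq0 : (0 : ℝ) < q := by
    have : (2 : ℝ) ≤ q := by exact_mod_cast hq
    linarith
  have h5 : 3 / (q : ℝ) ^ (2 * n + 1) ≤ 1 / D := by
    rw [div_le_div_iff₀ (by positivity) hD']
    have : ((3 * D : ℕ) : ℝ) ≤ ((q ^ (2 * n + 1) : ℕ) : ℝ) := by exact_mod_cast hn
    push_cast at this
    linarith
  set S := ∑ k ∈ Finset.range n, tm q k
  have h1' : (lsum q D n : ℝ) / D ≤ S := by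
    rw [div_le_iff₀ hD']; linarith
  have h2' : S ≤ (lsum q D n : ℝ) / D + n / D := by
    rw [← add_div, le_div_iff₀ hD']; linarith
  rw [add_div, abs_le]
  have : 0 ≤ (n : ℝ) / D := by positivity
  have : 0 ≤ 1 / (D : ℝ) := by positivity
  constructor <;> linarith

/-- `log 2`, `log (3 / 2)`, `log (5 / 4)` to 150 digits -/
theorem log2_approx : |Real.log 2 - (69314718055994530941723212145817656807550013436025525412068000949339362196969471560586332699641868754200148102057068573368552023575813055703267075163507511 : ℕ) / (10 ^ 155 : ℕ)| ≤ 164 / (10 ^ 155 : ℕ) := by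
  have h := log_approx 3 (10 ^ 155) 163 69314718055994530941723212145817656807550013436025525412068000949339362196969471560586332699641868754200148102057068573368552023575813055703267075163507511 (by norm_num) (by positivity)
    (by decide +kernel) (by decide +kernel)
  have e : Real.log (((3 : ℕ) : ℝ) + 1) - Real.log (((3 : ℕ) : ℝ) - 1) = Real.log 2 := by
    rw [← Real.log_div (by norm_num) (by norm_num)]; norm_num
  rw [e] at h
  refine h.trans (le_of_eq ?_)
  norm_num

theorem log32_approx : |Real.log 3 - Real.log 2 - (40546510810816438197801311546434913657199042346249419761401432414410067124891425126775242781731340124596854804538718000868248399017238926402013111913220093 : ℕ) / (10 ^ 155 : ℕ)| ≤ 112 / (10 ^ 155 : ℕ) := by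
  have h := log_approx 5 (10 ^ 155) 111 40546510810816438197801311546434913657199042346249419761401432414410067124891425126775242781731340124596854804538718000868248399017238926402013111913220093 (by norm_num) (by positivity)
    (by decide +kernel) (by decide +kernel)
  have e : Real.log (((5 : ℕ) : ℝ) + 1) - Real.log (((5 : ℕ) : ℝ) - 1) = Real.log 3 - Real.log 2 := by
    rw [← Real.log_div (by norm_num) (by norm_num), ← Real.log_div (by norm_num) (by norm_num)]
    norm_num
  rw [e] at h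
  refine h.trans (le_of_eq ?_)
  norm_num

theorem log54_approx : |Real.log 5 - 2 * Real.log 2 - (22314355131420975576629509030983450337460108554800721367128787248739174376826833341840722410034223571596334098057419143235296475780841508556827511419355341 : ℕ) / (10 ^ 155 : ℕ)| ≤ 82 / (10 ^ 155 : ℕ) := by
  have h := log_approx 9 (10 ^ 155) 81 22314355131420975576629509030983450337460108554800721367128787248739174376826833341840722410034223571596334098057419143235296475780841508556827511419355341 (by norm_num) (by positivity)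
    (by decide +kernel) (by decide +kernel)
  have e : Real.log (((9 : ℕ) : ℝ) + 1) - Real.log (((9 : ℕ) : ℝ) - 1) = Real.log 5 - 2 * Real.log 2 := by
    have e4 : 2 * Real.log 2 = Real.log 4 := by
      rw [show (4 : ℝ) = 2 ^ 2 by norm_num, Real.log_pow]; norm_num
    rw [e4, ← Real.log_div (by norm_num) (by norm_num), ← Real.log_div (by norm_num) (by norm_num)]
    norm_num
  rw [e] at h
  refine h.trans (le_of_eq ?_)
  norm_num

theorem logs : Pool.Agent.W187.WQ.S_LOGS := by
  have h2 := log2_approx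
  have h3 := log32_approx
  have h5 := log54_approx
  rw [abs_le] at h2 h3 h5
  obtain ⟨a1, a2⟩ := h2
  obtain ⟨b1, b2⟩ := h3
  obtain ⟨c1, c2⟩ := h5
  norm_num at a1 a2 b1 b2 c1 c2
  unfold Pool.Agent.W187.WQ.S_LOGS
  refine ⟨?_, ?_, ?_⟩ <;> rw [abs_le] <;> constructor <;> norm_num <;> linarith

end Pool.Agent.W90.WQ
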